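import Pool.Agent.Helper54_QE.Alg

/-!
# Module LIM: completeness for the trace norm
-/

set_option autoImplicit false
set_option linter.unusedSectionVars false

open scoped InnerProductSpace ComplexConjugate Topology ENNReal
open MeasureTheory Filter

noncomputable section

namespace Pool.Agent.QE.Helper51

open Pool.Agent.Anderson Pool.Agent.Helper54.Bal Pool.Agent.QE

variable {d : ℕ}

/-- a bounded sequence of operators converging on the delta functions converges strongly -/
theorem strong_lim {T : ℕ → Op d} {C : ℝ} (hC : ∀ k, ‖T k‖ ≤ C)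
    (hT : ∀ x, ∃ u : L2 d, Tendsto (fun k => T k (del x)) atTop (𝓝 u)) :
    ∃ A : Op d, (∀ f, Tendsto (fun k => T k f) atTop (𝓝 (A f))) ∧ ‖A‖ ≤ C := by
  have hC0 : 0 ≤ C := (norm_nonneg _).trans (hC 0)
  choose h hh using hT
  have hfin : ∀ (s : Finset (Site d)) (f : L2 d),
      CauchySeq fun k => T k (∑ x ∈ s, f x • (del x : L2 d)) := by
    intro s f
    have : Tendsto (fun k => T k (∑ x ∈ s, f x • (del x : L2 d))) atTop
        (𝓝 (∑ x ∈ s, f x • h x)) := by
      simp only [map_sum, map_smul]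
      exact tendsto_finsetSum _ fun x _ => (hh x).const_smul _
    exact this.cauchySeq
  have hcau : ∀ f : L2 d, CauchySeq fun k => T k f := by
    intro f
    rw [Metric.cauchySeq_iff]
    intro ε hε
    have h1 := hasSum_del f
    have hε2 : 0 < ε / (3 * (C + 1)) := by positivity
    obtain ⟨s, hs⟩ := ((Metric.tendsto_nhds.1 h1) _ hε2).exists
    obtain ⟨N, hN⟩ := Metric.cauchySeq_iff.1 (hfin s f) (ε / 3) (by positivity)
    refine ⟨N, fun m hm n hn => ?_⟩
    have h2 := hN m hm n hn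
    set g := ∑ x ∈ s, f x • (del x : L2 d) with hg
    rw [dist_eq_norm] at hs h2 ⊢
    have h3 : ∀ k, ‖T k f - T k g‖ ≤ ε / 3 := by
      intro k
      rw [← map_sub]
      have h4 := (T k).le_of_opNorm_le (hC k) (f - g)
      have h5 : ‖f - g‖ < ε / (3 * (C + 1)) := by rwa [norm_sub_rev]
      refine h4.trans ?_
      have h6 : C * ‖f - g‖ ≤ C * (ε / (3 * (C + 1))) :=
        mul_le_mul_of_nonneg_left h5.le hC0
      refine h6.trans ?_
      rw [mul_div_assoc']
      rw [div_le_div_iff₀ (by positivity) (by norm_num)]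
      nlinarith
    have e : T m f - T n f = (T m f - T m g) + (T m g - T n g) - (T n f - T n g) := by abel
    rw [e]
    have h6 := norm_sub_le ((T m f - T m g) + (T m g - T n g)) (T n f - T n g)
    have h7 := norm_add_le (T m f - T m g) (T m g - T n g)
    have h8 := h3 m
    have h9 := h3 n
    linarith
  have hlim : ∀ f : L2 d, ∃ u, Tendsto (fun k => T k f) atTop (𝓝 u) := fun f =>
    cauchySeq_tendsto_of_complete (hcau f)
  choose a ha using hlim
  refine ⟨LinearMap.mkContinuous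
    { toFun := a
      map_add' := fun f g => tendsto_nhds_unique (ha (f + g)) (by
        simpa only [map_add] using (ha f).add (ha g))
      map_smul' := fun c f => tendsto_nhds_unique (ha (c • f)) (by
        simp only [map_smul]
        exact (ha f).const_smul c) } C ?_, ?_, ?_⟩
  · intro f
    refine le_of_tendsto (ha f).norm (Eventually.of_forall fun k => ?_)
    exact (T k).le_of_opNorm_le (hC k) f
  · intro f
    exact ha f
  · exact LinearMap.mkContinuous_norm_le _ hC0 _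

theorem le_add_sq (u : L2 d) (k : ℕ) :
    ‖u‖ₑ ≤ ENNReal.ofReal ((1 / 2) ^ k) + ENNReal.ofReal (2 ^ k) * ‖u‖ₑ ^ 2 := by
  rw [← ofReal_norm, ← ENNReal.ofReal_pow (norm_nonneg _), ← ENNReal.ofReal_mul (by positivity),
    ← ENNReal.ofReal_add (by positivity) (by positivity)]
  refine ENNReal.ofReal_le_ofReal ?_
  set s : ℝ := (1 / 2) ^ k with hs
  have h2 : (2 : ℝ) ^ k * s = 1 := by
    rw [hs, ← mul_pow]; norm_num
  have hs0 : 0 < s := by positivity
  have h3 : (0 : ℝ) < 2 ^ k := by positivity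
  have h4 : 0 ≤ 2 ^ k * (‖u‖ - s / 2) ^ 2 := by positivity
  nlinarith [norm_nonneg u]

section

variable {μ : Measure ℝ} [IsProbabilityMeasure μ] {D : ℕ → Cfg d → Op d} {φ : ℕ → ℕ}

/-- total variation of the orbit of `δ_x` -/
def tv (D : ℕ → Cfg d → Op d) (φ : ℕ → ℕ) (x : Site d) (V : Cfg d) : ℝ≥0∞ :=
  ∑' k, ‖D (φ (k + 1)) V (del x) - D (φ k) V (del x)‖ₑ

theorem tv_tau (hD : ∀ n, Cov (D n)) (a x : Site d) (V : Cfg d) :
    tv D φ x (tau a V) = tv D φ (x + a) V := by
  unfold tv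
  refine tsum_congr fun k => ?_
  have h := fun n => (hD n).cov a V (del (x + a))
  simp only [Tr.shift_del, add_sub_cancel_right] at h
  rw [h, h, ← map_sub, ← ofReal_norm, ← ofReal_norm, (shift a).norm_map]

theorem measurable_tv (hD : ∀ n, Cov (D n)) (x : Site d) : Measurable (tv D φ x) := by
  unfold tv
  exact Measurable.tsum fun k => ((((hD _).meas _).sub ((hD _).meas _)).enorm)

theorem ae_tv_zero (hD : ∀ n, Cov (D n))
    (hφ : ∀ k, ∫⁻ V, ‖D (φ (k + 1)) V (del 0) - D (φ k) V (del 0)‖ₑ ^ 2 ∂(PP d μ) ≤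
      ENNReal.ofReal ((1 / 4) ^ k)) :
    ∀ᵐ V ∂(PP d μ), tv D φ 0 V ≠ ∞ := by
  have h1 : ∫⁻ V, tv D φ 0 V ∂(PP d μ) ≠ ∞ := by
    unfold tv
    rw [lintegral_tsum (f := fun k V => ‖D (φ (k + 1)) V (del 0) - D (φ k) V (del 0)‖ₑ)
      fun k => (((((hD _).meas _).sub ((hD _).meas _)).enorm).aemeasurable)]
    have h2 : ∀ k, ∫⁻ V, ‖D (φ (k + 1)) V (del 0) - D (φ k) V (del 0)‖ₑ ∂(PP d μ) ≤
        ENNReal.ofReal (2 * (1 / 2) ^ k) := by
      intro k
      calc ∫⁻ V, ‖D (φ (k + 1)) V (del 0) - D (φ k) V (del 0)‖ₑ ∂(PP d μ)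
          ≤ ∫⁻ V, (ENNReal.ofReal ((1 / 2) ^ k) + ENNReal.ofReal (2 ^ k) *
              ‖D (φ (k + 1)) V (del 0) - D (φ k) V (del 0)‖ₑ ^ 2) ∂(PP d μ) :=
            lintegral_mono fun V => le_add_sq _ k
        _ = ENNReal.ofReal ((1 / 2) ^ k) + ENNReal.ofReal (2 ^ k) *
              ∫⁻ V, ‖D (φ (k + 1)) V (del 0) - D (φ k) V (del 0)‖ₑ ^ 2 ∂(PP d μ) := by
            rw [lintegral_add_left measurable_const,
              lintegral_const_mul' _ _ ENNReal.ofReal_ne_top, lintegral_const, measure_univ,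
              mul_one]
        _ ≤ ENNReal.ofReal ((1 / 2) ^ k) + ENNReal.ofReal (2 ^ k) *
              ENNReal.ofReal ((1 / 4) ^ k) := by gcongr; exact hφ k
        _ = ENNReal.ofReal (2 * (1 / 2) ^ k) := by
            rw [← ENNReal.ofReal_mul (by positivity), ← ENNReal.ofReal_add (by positivity)
              (by positivity)]
            congr 1
            rw [← mul_pow]
            norm_num
            ring
    refine ne_top_of_le_ne_top ?_ (ENNReal.tsum_le_tsum h2)
    rw [← ENNReal.ofReal_tsum_of_nonneg (fun k => by positivity)]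
    · exact ENNReal.ofReal_ne_top
    · exact (summable_geometric_of_lt_one (by norm_num) (by norm_num)).mul_left 2
  filter_upwards [ae_lt_top (measurable_tv hD 0) h1] with V hV using hV.ne

theorem ae_tv (hD : ∀ n, Cov (D n))
    (hφ : ∀ k, ∫⁻ V, ‖D (φ (k + 1)) V (del 0) - D (φ k) V (del 0)‖ₑ ^ 2 ∂(PP d μ) ≤
      ENNReal.ofReal ((1 / 4) ^ k)) :
    ∀ᵐ V ∂(PP d μ), ∀ x, tv D φ x V ≠ ∞ := by
  rw [ae_all_iff]
  intro x
  have h := (Tr.mp_tau (d := d) μ x).quasiMeasurePreserving.ae (ae_tv_zero hD hφ)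
  filter_upwards [h] with V hV
  rwa [tv_tau hD, zero_add] at hV

end

theorem lim : LimStatement := by
  intro d μ _ D hD C hC hcau
  -- the subsequence
  have hex : ∀ k : ℕ, ∃ N₀ : ℕ, ∀ n ≥ N₀, ∀ m ≥ N₀,
      ∫⁻ V, ‖D n V (del 0) - D m V (del 0)‖ₑ ^ 2 ∂(PP d μ) ≤
        ENNReal.ofReal ((1 / 4) ^ k) := fun k => hcau _ (by positivity)
  choose M hM using hex
  set φ : ℕ → ℕ := fun k => ∑ i ∈ Finset.range (k + 1), (M i + 1) with hφdef
  have hφm : StrictMono φ := strictMono_nat_of_lt_succ fun k => by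
    simp only [hφdef]
    rw [Finset.sum_range_succ _ (k + 1)]
    omega
  have hφM : ∀ k, M k ≤ φ k := fun k => by
    simp only [hφdef]
    rw [Finset.sum_range_succ]
    omega
  have hφ : ∀ k, ∫⁻ V, ‖D (φ (k + 1)) V (del 0) - D (φ k) V (del 0)‖ₑ ^ 2 ∂(PP d μ) ≤
      ENNReal.ofReal ((1 / 4) ^ k) := fun k =>
    hM k _ ((hφM k).trans (hφm.monotone (Nat.le_succ k))) _ (hφM k)
  set S : Set (Cfg d) := {V | ∀ x, tv D φ x V ≠ ∞} with hS
  have hSm : MeasurableSet S := by
    have e : S = ⋂ x, {V | tv D φ x V ≠ ∞} := by ext V; simp [hS]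
    rw [e]
    exact MeasurableSet.iInter fun x =>
      (measurable_tv hD x) (measurableSet_singleton ∞).compl
  have hSae : ∀ᵐ V ∂(PP d μ), V ∈ S := ae_tv hD hφ
  have hStau : ∀ a V, tau a V ∈ S ↔ V ∈ S := fun a V => by
    simp only [hS, Set.mem_ofPred_eq, tv_tau hD]
    refine ⟨fun h x => ?_, fun h x => h _⟩
    have := h (x - a)
    rwa [sub_add_cancel] at this
  have hlim : ∀ V ∈ S, ∃ A : Op d, (∀ f, Tendsto (fun k => D (φ k) V f) atTop (𝓝 (A f))) ∧
      ‖A‖ ≤ C := fun V hV => by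
    refine strong_lim (fun k => hC _ V) fun x => ?_
    refine cauchySeq_tendsto_of_complete (cauchySeq_of_edist_le_of_tsum_ne_top
      (fun k => ‖D (φ (k + 1)) V (del x) - D (φ k) V (del x)‖ₑ) (fun k => ?_) (hV x))
    rw [edist_comm, edist_eq_enorm_sub]
  have hC0 : 0 ≤ C := (norm_nonneg _).trans (hC 0 0)
  classical
  set A : Cfg d → Op d := fun V => if h : V ∈ S then (hlim V h).choose else 0 with hA
  have hA1 : ∀ V ∈ S, ∀ f, Tendsto (fun k => D (φ k) V f) atTop (𝓝 (A V f)) := fun V hV f => by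
    simp only [hA, dif_pos hV]
    exact (hlim V hV).choose_spec.1 f
  have hA0 : ∀ V ∉ S, A V = 0 := fun V hV => by simp only [hA, dif_neg hV]
  have hAC : ∀ V, ‖A V‖ ≤ C := fun V => by
    by_cases hV : V ∈ S
    · simp only [hA, dif_pos hV]
      exact (hlim V hV).choose_spec.2
    · rw [hA0 V hV, norm_zero]; exact hC0
  refine ⟨A, φ, hφm, ⟨fun f => ?_, fun a V f => ?_, C, hAC⟩, hAC, fun V => ?_, ?_⟩
  · refine stronglyMeasurable_of_tendsto (u := atTop) (f := fun (k : ℕ) V =>
      S.indicator (fun V => D (φ k) V f) V) (fun k => ((hD _).meas f).indicator hSm) ?_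
    rw [tendsto_pi_nhds]
    intro V
    by_cases hV : V ∈ S
    · simp only [Set.indicator_of_mem hV]
      exact hA1 V hV f
    · simp only [Set.indicator_of_notMem hV, hA0 V hV]
      exact tendsto_const_nhds
  · by_cases hV : V ∈ S
    · have h1 := hA1 (tau a V) ((hStau a V).2 hV) (shift a f)
      have h2 := ((shift a).continuous.tendsto (A V f)).comp (hA1 V hV f)
      refine tendsto_nhds_unique h1 (h2.congr fun k => ?_)
      exact ((hD _).cov a V f).symm
    · rw [hA0 V hV, hA0 _ (fun h => hV ((hStau a V).1 h))]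
      simp
  · by_cases hV : V ∈ S
    · exact Or.inr fun f => hA1 V hV f
    · exact Or.inl (hA0 V hV)
  · rw [ENNReal.tendsto_atTop_zero]
    intro ε hε
    by_cases hε' : ε = ∞
    · exact ⟨0, fun n _ => hε' ▸ le_top⟩
    obtain ⟨N₀, hN₀⟩ := hcau ε.toReal (ENNReal.toReal_pos hε.ne' hε')
    refine ⟨N₀, fun n hn => ?_⟩
    have h1 : ∀ k ≥ N₀, ∫⁻ V, ‖D n V (del 0) - D (φ k) V (del 0)‖ₑ ^ 2 ∂(PP d μ) ≤ ε := by
      intro k hk
      have := hN₀ n hn (φ k) (hk.trans (hφm.id_le k))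
      rwa [ENNReal.ofReal_toReal hε'] at this
    calc ∫⁻ V, ‖D n V (del 0) - A V (del 0)‖ₑ ^ 2 ∂(PP d μ)
        = ∫⁻ V, liminf (fun k => ‖D n V (del 0) - D (φ k) V (del 0)‖ₑ ^ 2) atTop ∂(PP d μ) := by
          refine lintegral_congr_ae ?_
          filter_upwards [hSae] with V hV
          have h2 : Tendsto (fun k => ‖D n V (del 0) - D (φ k) V (del 0)‖ₑ ^ 2) atTop
              (𝓝 (‖D n V (del 0) - A V (del 0)‖ₑ ^ 2)) := by
            have h3 : Tendsto (fun k => D n V (del 0) - D (φ k) V (del 0)) atTop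
                (𝓝 (D n V (del 0) - A V (del 0))) := tendsto_const_nhds.sub (hA1 V hV _)
            exact ((ENNReal.continuous_pow 2).tendsto _).comp
              ((continuous_enorm.tendsto _).comp h3)
          exact h2.liminf_eq.symm
      _ ≤ liminf (fun k => ∫⁻ V, ‖D n V (del 0) - D (φ k) V (del 0)‖ₑ ^ 2 ∂(PP d μ)) atTop := by
          refine lintegral_liminf_le fun k => ?_
          exact ((((hD _).meas _).sub ((hD _).meas _)).enorm).pow_const 2
      _ ≤ ε := by
          refine liminf_le_of_frequently_le' (Eventually.frequently ?_)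
          exact eventually_atTop.2 ⟨N₀, h1⟩

end Pool.Agent.QE.Helper51
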