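import Pool.Agent.Helper54_QE.Erg
import Pool.Agent.Helper54_QE.Iso
import Pool.Agent.Helper51_QE.Lim

/-!
# Module CONS: the conserved part of a covariant observable
-/

set_option autoImplicit false
set_option linter.unusedSectionVars false

open scoped InnerProductSpace ComplexConjugate Topology ENNReal
open MeasureTheory Filter

noncomputable section

namespace Pool.Agent.QE.Helper51

open Pool.Agent.Anderson Pool.Agent.Helper54.Bal Pool.Agent.QE

variable {d : ℕ}

/-! ### commutation with the resolvent -/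

theorem comm_res {V : Cfg d} {T : Op d} (hT : T * cay V = cay V * T) {z : ℂ} (hz : z.im ≠ 0) :
    T * G V z = G V z * T := by
  have hw := negI_im_ne
  set w : ℂ := -Complex.I with hwdef
  have h0 : T * G V w = G V w * T := by
    unfold cay at hT
    rw [mul_sub, sub_mul, mul_one, one_mul, sub_right_inj, mul_smul_comm, smul_mul_assoc] at hT
    exact smul_right_injective _ (mul_ne_zero two_ne_zero Complex.I_ne_zero) hT
  by_cases hzw : z = w
  · rw [hzw]; exact h0
  have h1 := (isRes_G V).ident z w hz hw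
  have h2 := (isRes_G V).comm hz hw
  have ha : z - w ≠ 0 := sub_ne_zero.2 hzw
  set a : ℂ := z - w with hadef
  set P := G V z with hP
  set Q := G V w with hQ
  have hKR : (1 - a • Q) * (1 + a • P) = 1 := by
    have e : (1 - a • Q) * (1 + a • P) = 1 + a • (P - Q) - (a * a) • (Q * P) := by
      simp only [sub_mul, mul_add, one_mul, mul_one, smul_sub, smul_mul_assoc, mul_smul_comm,
        smul_smul]
      abel
    rw [e, h1, ← h2, smul_smul]
    abel
  have hRK : (1 + a • P) * (1 - a • Q) = 1 := by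
    have e : (1 + a • P) * (1 - a • Q) = 1 + a • (P - Q) - (a * a) • (P * Q) := by
      simp only [mul_sub, add_mul, one_mul, mul_one, smul_sub, smul_add, smul_mul_assoc,
        mul_smul_comm, smul_smul]
      abel
    rw [e, h1, smul_smul]
    abel
  have hTK : T * (1 - a • Q) = (1 - a • Q) * T := by
    rw [mul_sub, sub_mul, mul_one, one_mul, mul_smul_comm, smul_mul_assoc, h0]
  have hTR : T * (1 + a • P) = (1 + a • P) * T := by
    calc T * (1 + a • P) = (1 + a • P) * (1 - a • Q) * T * (1 + a • P) := by rw [hRK, one_mul]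
      _ = (1 + a • P) * (T * (1 - a • Q)) * (1 + a • P) := by rw [hTK]; simp only [mul_assoc]
      _ = (1 + a • P) * T * ((1 - a • Q) * (1 + a • P)) := by simp only [mul_assoc]
      _ = (1 + a • P) * T := by rw [hKR, mul_one]
  rw [mul_add, add_mul, mul_one, one_mul, add_right_inj, mul_smul_comm, smul_mul_assoc] at hTR
  exact smul_right_injective _ ha hTR

/-! ### averages are almost invariant -/

theorem avg_conj_sub (V : Cfg d) (N : ℕ) (B : Op d) :
    cayS V * avg V N B * cay V - avg V N B =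
      ((N : ℂ) + 1)⁻¹ • (cayS V ^ (N + 1) * B * cay V ^ (N + 1) - B) := by
  have e1 : cayS V * avg V N B * cay V = ((N : ℂ) + 1)⁻¹ •
      ∑ n ∈ Finset.range (N + 1), cayS V ^ (n + 1) * B * cay V ^ (n + 1) := by
    unfold avg
    rw [mul_smul_comm, smul_mul_assoc, Finset.mul_sum, Finset.sum_mul]
    congr 1
    refine Finset.sum_congr rfl fun n _ => ?_
    rw [pow_succ' (cayS V), pow_succ (cay V)]
    simp only [mul_assoc]
  rw [e1]
  unfold avg
  rw [← smul_sub, ← Finset.sum_sub_distrib]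
  congr 1
  rw [Finset.sum_range_sub (fun n => cayS V ^ n * B * cay V ^ n) (N + 1)]
  simp

theorem norm_avg_conj_sub_le (V : Cfg d) (N : ℕ) {B : Op d} {C : ℝ} (hC : ‖B‖ ≤ C) (f : L2 d) :
    ‖cayS V (avg V N B (cay V f)) - avg V N B f‖ ≤ ((N : ℝ) + 1)⁻¹ * (2 * C * ‖f‖) := by
  have e : cayS V (avg V N B (cay V f)) - avg V N B f =
      ((N : ℂ) + 1)⁻¹ • ((cayS V ^ (N + 1)) (B ((cay V ^ (N + 1)) f)) - B f) := by
    have := congrArg (fun T : Op d => T f) (avg_conj_sub V N B)
    exact this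
  rw [e, norm_smul, Erg.norm_cast_add]
  refine mul_le_mul_of_nonneg_left ?_ (by positivity)
  refine (norm_sub_le _ _).trans ?_
  rw [norm_cayS_pow]
  have h1 := B.le_of_opNorm_le hC ((cay V ^ (N + 1)) f)
  have h2 := B.le_of_opNorm_le hC f
  rw [norm_cay_pow] at h1
  linarith

/-! ### covariant families as a vector space -/

/-- covariant families as a vector space -/
def CovMod (d : ℕ) : Submodule ℂ (Cfg d → Op d) where
  carrier := {A | Cov A}
  add_mem' hA hB := Cov.add hA hB
  zero_mem' := Cov.zero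
  smul_mem' c _ hA := Cov.smul hA c

theorem memLp_del (μ : Measure ℝ) [IsProbabilityMeasure μ] {D : Cfg d → Op d} (hD : Cov D) :
    MemLp (fun V => D V (del 0)) 2 (PP d μ) := by
  obtain ⟨C, hC⟩ := hD.bdd
  exact MemLp.of_bound (hD.meas _).aestronglyMeasurable (C * ‖(del 0 : L2 d)‖)
    (ae_of_all _ fun V => (D V).le_of_opNorm_le (hC V) _)

/-- the vector `D_V δ_0` in `L²(P)` -/
def TT (d : ℕ) (μ : Measure ℝ) [IsProbabilityMeasure μ] : CovMod d →ₗ[ℂ] Lp (L2 d) 2 (PP d μ) where
  toFun D := (memLp_del μ D.2).toLp _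
  map_add' _ _ := rfl
  map_smul' _ _ := rfl

theorem enorm_TT_sq (μ : Measure ℝ) [IsProbabilityMeasure μ] (D : CovMod d) :
    ‖TT d μ D‖ₑ ^ 2 = ∫⁻ V, ‖D.1 V (del 0)‖ₑ ^ 2 ∂(PP d μ) := by
  have h1 : ‖TT d μ D‖ₑ = eLpNorm (fun V => D.1 V (del 0)) 2 (PP d μ) :=
    Lp.enorm_toLp (memLp_del μ D.2)
  have h2 := eLpNorm_nnreal_pow_eq_lintegral (μ := PP d μ)
    (f := fun V => D.1 V (del 0)) (p := 2) (by norm_num)
  rw [h1]
  simpa using h2

/-- the Heisenberg evolution -/
def SS (d : ℕ) : CovMod d →ₗ[ℂ] CovMod d where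
  toFun D := ⟨fun V => cayS V * D.1 V * cay V, (cov_cayS.mul D.2).mul cov_cay⟩
  map_add' A B := by
    apply Subtype.ext
    funext V
    change cayS V * (A.1 V + B.1 V) * cay V = cayS V * A.1 V * cay V + cayS V * B.1 V * cay V
    rw [mul_add, add_mul]
  map_smul' c A := by
    apply Subtype.ext
    funext V
    change cayS V * (c • A.1 V) * cay V = c • (cayS V * A.1 V * cay V)
    rw [mul_smul_comm, smul_mul_assoc]

theorem SS_pow (n : ℕ) (D : CovMod d) (V : Cfg d) :
    ((SS d ^ n) D).1 V = cayS V ^ n * D.1 V * cay V ^ n := by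
  induction n with
  | zero => simp
  | succ n ih =>
    have e : ((SS d ^ (n + 1)) D).1 V = cayS V * ((SS d ^ n) D).1 V * cay V := by
      rw [pow_succ', Module.End.mul_apply]
      rfl
    rw [e, ih, pow_succ' (cayS V), pow_succ (cay V)]
    simp only [mul_assoc]

theorem Av_val (N : ℕ) (D : CovMod d) (V : Cfg d) :
    (Erg.Av (SS d) N D).1 V = avg V N (D.1 V) := by
  have e : (Erg.Av (SS d) N D).1 V =
      ((N : ℂ) + 1)⁻¹ • ∑ n ∈ Finset.range (N + 1), ((SS d ^ n) D).1 V := by
    unfold Erg.Av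
    rw [Submodule.coe_smul, Pi.smul_apply, Submodule.coe_sum, Finset.sum_apply]
  rw [e]
  unfold avg
  congr 1
  exact Finset.sum_congr rfl fun n _ => SS_pow n D V

theorem cons : ConsStatement := by
  intro d μ _ B hB C hC
  set b : CovMod d := ⟨B, hB⟩ with hb
  have hiso : ∀ l : CovMod d, ‖TT d μ (SS d l)‖ = ‖TT d μ l‖ := fun l => by
    have h1 := (iso d μ l.1 l.2).2
    have h2 : ‖TT d μ (SS d l)‖ₑ ^ 2 = ‖TT d μ l‖ₑ ^ 2 := by
      rw [enorm_TT_sq, enorm_TT_sq]; exact h1
    have h3 : ‖TT d μ (SS d l)‖ₑ = ‖TT d μ l‖ₑ :=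
      (ENNReal.pow_right_strictMono two_ne_zero).injective h2
    rw [← toReal_enorm, ← toReal_enorm, h3]
  have hcau := Erg.abs_erg hiso b
  have hD : ∀ n, Cov fun V => avg V n (B V) := fun n => cov_avg hB n
  obtain ⟨A, φ, hφ, hA, hAC, hstr, hlim⟩ := lim d μ (fun n V => avg V n (B V)) hD C
    (fun n V => norm_avg_le V n (hC V)) (fun κ hκ => by
      obtain ⟨N₀, hN₀⟩ := Metric.cauchySeq_iff.1 hcau (Real.sqrt κ) (Real.sqrt_pos.2 hκ)
      refine ⟨N₀, fun n hn m hm => ?_⟩
      have h1 := hN₀ n hn m hm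
      have e : ∫⁻ V, ‖avg V n (B V) (del 0) - avg V m (B V) (del 0)‖ₑ ^ 2 ∂(PP d μ) =
          ‖TT d μ (Erg.Av (SS d) n b - Erg.Av (SS d) m b)‖ₑ ^ 2 := by
        rw [enorm_TT_sq]
        refine lintegral_congr fun V => ?_
        have e2 : (Erg.Av (SS d) n b - Erg.Av (SS d) m b).1 V =
            avg V n (B V) - avg V m (B V) := by
          rw [← Av_val n b V, ← Av_val m b V]
          rfl
        rw [e2]
        rfl
      rw [e, map_sub, ← ofReal_norm, ← ENNReal.ofReal_pow (norm_nonneg _)]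
      refine ENNReal.ofReal_le_ofReal ?_
      rw [dist_eq_norm] at h1
      have h2 := Real.sq_sqrt hκ.le
      have h3 := norm_nonneg (TT d μ (Erg.Av (SS d) n b) - TT d μ (Erg.Av (SS d) m b))
      nlinarith [Real.sqrt_nonneg κ])
  refine ⟨A, hA, hAC, fun V z hz f => ?_, hlim⟩
  rcases hstr V with h0 | hstr
  · rw [h0]; simp
  have hinv : ∀ f, cayS V (A V (cay V f)) = A V f := fun f => by
    have h1 : Tendsto (fun k => cayS V (avg V (φ k) (B V) (cay V f)) - avg V (φ k) (B V) f)
        atTop (𝓝 (cayS V (A V (cay V f)) - A V f)) :=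
      (((cayS V).continuous.tendsto _).comp (hstr (cay V f))).sub (hstr f)
    have h2 : Tendsto (fun k => cayS V (avg V (φ k) (B V) (cay V f)) - avg V (φ k) (B V) f)
        atTop (𝓝 0) := by
      refine squeeze_zero_norm (fun k => norm_avg_conj_sub_le V (φ k) (hC V) f) ?_
      have h3 : Tendsto (fun N : ℕ => ((N : ℝ) + 1)⁻¹ * (2 * C * ‖f‖)) atTop (𝓝 0) := by
        have := (tendsto_inv_atTop_zero.comp (tendsto_atTop_add_const_right atTop (1 : ℝ)
          tendsto_natCast_atTop_atTop)).mul_const (2 * C * ‖f‖)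
        simpa using this
      exact h3.comp hφ.tendsto_atTop
    exact sub_eq_zero.1 (tendsto_nhds_unique h1 h2)
  have hcay : A V * cay V = cay V * A V := by
    refine ContinuousLinearMap.ext fun f => ?_
    change A V (cay V f) = cay V (A V f)
    rw [← hinv f, cay_cayS_apply]
  exact congrArg (fun T : Op d => T f) (comm_res hcay hz)

end Pool.Agent.QE.Helper51
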