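import Pool.Agent.Helper54_QE.Defs2

/-!
# Module ERG: the mean ergodic theorem for stationary sequences
-/

set_option autoImplicit false
set_option linter.unusedSectionVars false

open scoped InnerProductSpace ComplexConjugate Topology ENNReal
open MeasureTheory Filter

noncomputable section

namespace Pool.Agent.QE.Helper51

variable {X : Type} [NormedAddCommGroup X] [InnerProductSpace ℂ X]

theorem lc_shift {v : ℕ → X}
    (hv : ∀ (s : Finset ℕ) (l : ℕ → ℂ), ‖∑ n ∈ s, l n • v (n + 1)‖ = ‖∑ n ∈ s, l n • v n‖)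
    (l : ℕ →₀ ℂ) :
    ‖Finsupp.linearCombination ℂ (fun n => v (n + 1)) l‖ = ‖Finsupp.linearCombination ℂ v l‖ := by
  simp only [Finsupp.linearCombination_apply, Finsupp.sum]
  exact hv l.support l

theorem lc_shift_n {v : ℕ → X}
    (hv : ∀ (s : Finset ℕ) (l : ℕ → ℂ), ‖∑ n ∈ s, l n • v (n + 1)‖ = ‖∑ n ∈ s, l n • v n‖)
    (n : ℕ) (l : ℕ →₀ ℂ) :
    ‖Finsupp.linearCombination ℂ (fun k => v (k + n)) l‖ =
      ‖Finsupp.linearCombination ℂ v l‖ := by
  induction n with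
  | zero => rfl
  | succ n ih =>
    rw [← ih]
    have h := lc_shift hv (Finsupp.mapDomain (fun k => k + n) l)
    rw [Finsupp.linearCombination_mapDomain, Finsupp.linearCombination_mapDomain] at h
    exact h

/-- invariance for arbitrary finite families -/
theorem fam_shift {v : ℕ → X}
    (hv : ∀ (s : Finset ℕ) (l : ℕ → ℂ), ‖∑ n ∈ s, l n • v (n + 1)‖ = ‖∑ n ∈ s, l n • v n‖)
    {ι : Type*} (t : Finset ι) (w : ι → ℂ) (g : ι → ℕ) (n : ℕ) :
    ‖∑ i ∈ t, w i • v (g i + n)‖ = ‖∑ i ∈ t, w i • v (g i)‖ := by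
  have h := lc_shift_n hv n (∑ i ∈ t, Finsupp.single (g i) (w i))
  simp only [map_sum, Finsupp.linearCombination_single] at h
  exact h

theorem norm_v {v : ℕ → X}
    (hv : ∀ (s : Finset ℕ) (l : ℕ → ℂ), ‖∑ n ∈ s, l n • v (n + 1)‖ = ‖∑ n ∈ s, l n • v n‖)
    (n : ℕ) : ‖v n‖ = ‖v 0‖ := by
  have h := fam_shift hv {(0 : ℕ)} (fun _ => 1) (fun _ => 0) n
  simpa using h

/-- the averages of the shifted sequence stay close to the averages -/
theorem sum_shift_sub {v : ℕ → X} (hn : ∀ n, ‖v n‖ = ‖v 0‖) (k N : ℕ) :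
    ‖∑ n ∈ Finset.range (N + 1), v (k + n) - ∑ n ∈ Finset.range (N + 1), v n‖ ≤
      2 * k * ‖v 0‖ := by
  induction k with
  | zero => simp
  | succ k ih =>
    have e : ∑ n ∈ Finset.range (N + 1), v (k + 1 + n) =
        ∑ n ∈ Finset.range (N + 1), v (k + n) + v (k + (N + 1)) - v k := by
      have h1 := Finset.sum_range_succ (fun n => v (k + n)) (N + 1)
      have h2 := Finset.sum_range_succ' (fun n => v (k + n)) (N + 1)
      have h3 : ∑ n ∈ Finset.range (N + 1), v (k + 1 + n) =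
          ∑ n ∈ Finset.range (N + 1), v (k + (n + 1)) := by
        refine Finset.sum_congr rfl fun n _ => ?_
        congr 1
        omega
      rw [h3, ← h1, h2]
      simp
    rw [e]
    have e2 : ∑ n ∈ Finset.range (N + 1), v (k + n) + v (k + (N + 1)) - v k -
        ∑ n ∈ Finset.range (N + 1), v n =
        (∑ n ∈ Finset.range (N + 1), v (k + n) - ∑ n ∈ Finset.range (N + 1), v n) +
          (v (k + (N + 1)) - v k) := by abel
    rw [e2]
    refine (norm_add_le _ _).trans ?_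
    have h4 : ‖v (k + (N + 1)) - v k‖ ≤ ‖v 0‖ + ‖v 0‖ := by
      refine (norm_sub_le _ _).trans ?_
      rw [hn, hn k]
    push_cast
    linarith

theorem norm_natCast_add_one (N : ℕ) : ‖((N : ℂ) + 1)⁻¹‖ = ((N : ℝ) + 1)⁻¹ := by
  rw [norm_inv]
  have : ((N : ℂ) + 1) = (((N : ℝ) + 1 : ℝ) : ℂ) := by push_cast; ring
  rw [this, Complex.norm_real, Real.norm_of_nonneg (by positivity)]

theorem erg : ErgStatement := by
  intro X _ _ v hv
  let _ : NormedSpace ℝ X := NormedSpace.complexToReal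
  have hn := norm_v hv
  set C : Set X := convexHull ℝ (Set.range v) with hC
  have hCc : Convex ℝ C := convex_convexHull ℝ _
  have hvC : ∀ n, v n ∈ C := fun n => subset_convexHull ℝ _ ⟨n, rfl⟩
  set a : ℝ := sInf ((fun x => ‖x‖) '' C) with ha
  have hbdd : BddBelow ((fun x => ‖x‖) '' C) := ⟨0, by rintro _ ⟨x, _, rfl⟩; exact norm_nonneg x⟩
  have haC : ∀ x ∈ C, a ≤ ‖x‖ := fun x hx => csInf_le hbdd ⟨x, hx, rfl⟩
  have ha0 : 0 ≤ a := le_csInf ⟨_, ⟨v 0, hvC 0, rfl⟩⟩ (by rintro _ ⟨x, _, rfl⟩; exact norm_nonneg x)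
  rw [Metric.cauchySeq_iff']
  intro ε hε
  -- choose a nearly minimal convex combination
  set κ : ℝ := ε ^ 2 / 64 with hκ
  have hκ0 : 0 < κ := by positivity
  obtain ⟨w, hwC, hwa⟩ : ∃ w ∈ C, ‖w‖ ^ 2 ≤ a ^ 2 + κ := by
    by_contra hcon
    push Not at hcon
    have h1 : ∀ x ∈ C, Real.sqrt (a ^ 2 + κ) ≤ ‖x‖ := fun x hx => by
      rw [← Real.sqrt_sq (norm_nonneg x)]
      exact Real.sqrt_le_sqrt (hcon x hx).le
    have h2 : Real.sqrt (a ^ 2 + κ) ≤ a :=
      le_csInf ⟨_, ⟨v 0, hvC 0, rfl⟩⟩ (by rintro _ ⟨x, hx, rfl⟩; exact h1 x hx)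
    have h3 : a < Real.sqrt (a ^ 2 + κ) := by
      rw [Real.lt_sqrt ha0]
      linarith
    linarith
  rw [hC, convexHull_eq] at hwC
  obtain ⟨ι, t, c, z, hc0, hc1, hz, hcm⟩ := hwC
  choose! g hg using hz
  have hw : w = ∑ i ∈ t, ((c i : ℝ) : ℂ) • v (g i) := by
    rw [← hcm, Finset.centerMass_eq_of_sum_1 _ _ hc1]
    refine Finset.sum_congr rfl fun i hi => ?_
    rw [hg i hi]
    rfl
  -- shifted combinations
  set W : ℕ → X := fun n => ∑ i ∈ t, ((c i : ℝ) : ℂ) • v (g i + n) with hW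
  have hWn : ∀ n, ‖W n‖ = ‖w‖ := fun n => by
    rw [hw]; exact fam_shift hv t _ g n
  have hWC : ∀ n, W n ∈ C := fun n =>
    hCc.sum_mem hc0 hc1 fun i _ => hvC _
  set B : ℕ → X := fun N => ((N : ℂ) + 1)⁻¹ • ∑ n ∈ Finset.range (N + 1), W n with hB
  have hBC : ∀ N, B N ∈ C := fun N => by
    have e : B N = ∑ n ∈ Finset.range (N + 1), (((N : ℝ) + 1)⁻¹) • W n := by
      rw [← Finset.smul_sum]
      have : ((N : ℂ) + 1)⁻¹ = ((((N : ℝ) + 1)⁻¹ : ℝ) : ℂ) := by push_cast; ring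
      simp only [hB, this]
      rfl
    rw [e]
    refine hCc.sum_mem (fun i _ => by positivity) ?_ fun i _ => hWC _
    rw [Finset.sum_const, Finset.card_range, nsmul_eq_mul]
    push_cast
    field_simp
  have hBn : ∀ N, ‖B N‖ ≤ ‖w‖ := fun N => by
    simp only [hB, norm_smul, norm_natCast_add_one]
    have h1 : ‖∑ n ∈ Finset.range (N + 1), W n‖ ≤ ∑ n ∈ Finset.range (N + 1), ‖w‖ :=
      norm_sum_le_of_le _ fun n _ => (hWn n).le
    rw [Finset.sum_const, Finset.card_range, nsmul_eq_mul] at h1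
    rw [inv_mul_le_iff₀ (by positivity)]
    push_cast at h1
    linarith
  have hBB : ∀ N M, ‖B N - B M‖ ≤ ε / 4 := fun N M => by
    have h1 : ‖B N + B M‖ * ‖B N + B M‖ + ‖B N - B M‖ * ‖B N - B M‖ =
        2 * (‖B N‖ * ‖B N‖ + ‖B M‖ * ‖B M‖) := by
      have := parallelogram_law_with_norm ℂ (B N) (B M)
      linarith
    have h2 : 2 * a ≤ ‖B N + B M‖ := by
      have h3 : (1 / 2 : ℝ) • B N + (1 / 2 : ℝ) • B M ∈ C :=
        hCc (hBC N) (hBC M) (by norm_num) (by norm_num) (by norm_num)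
      have h4 := haC _ h3
      rw [← smul_add, norm_smul, Real.norm_of_nonneg (by norm_num)] at h4
      linarith
    have h5 := hBn N
    have h6 := hBn M
    have h7 : ‖B N - B M‖ ^ 2 ≤ (ε / 4) ^ 2 := by
      have h8 : ‖B N‖ * ‖B N‖ ≤ ‖w‖ ^ 2 := by
        rw [pow_two]; exact mul_le_mul h5 h5 (norm_nonneg _) (norm_nonneg _)
      have h9 : ‖B M‖ * ‖B M‖ ≤ ‖w‖ ^ 2 := by
        rw [pow_two]; exact mul_le_mul h6 h6 (norm_nonneg _) (norm_nonneg _)
      have h10 : 4 * a ^ 2 ≤ ‖B N + B M‖ * ‖B N + B M‖ := by nlinarith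
      nlinarith
    exact le_of_sq_le_sq h7 (by positivity)
  -- comparison with the averages of v
  set D : ℝ := ∑ i ∈ t, c i * (2 * (g i : ℝ) * ‖v 0‖) with hD
  have hcomp : ∀ N, ‖B N - ((N : ℂ) + 1)⁻¹ • ∑ n ∈ Finset.range (N + 1), v n‖ ≤
      ((N : ℝ) + 1)⁻¹ * D := fun N => by
    have e : B N - ((N : ℂ) + 1)⁻¹ • ∑ n ∈ Finset.range (N + 1), v n =
        ((N : ℂ) + 1)⁻¹ • ∑ i ∈ t, ((c i : ℝ) : ℂ) •
          (∑ n ∈ Finset.range (N + 1), v (g i + n) - ∑ n ∈ Finset.range (N + 1), v n) := by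
      simp only [hB, hW]
      rw [← smul_sub]
      congr 1
      rw [Finset.sum_comm]
      simp only [smul_sub, Finset.sum_sub_distrib]
      congr 1
      · refine Finset.sum_congr rfl fun i _ => ?_
        rw [Finset.smul_sum]
      · rw [← Finset.sum_smul]
        have : ∑ i ∈ t, ((c i : ℝ) : ℂ) = 1 := by
          rw [← Complex.ofReal_sum, hc1]; rfl
        rw [this, one_smul]
    rw [e, norm_smul, norm_natCast_add_one]
    refine mul_le_mul_of_nonneg_left ?_ (by positivity)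
    refine norm_sum_le_of_le _ fun i hi => ?_
    rw [norm_smul, Complex.norm_real, Real.norm_of_nonneg (hc0 i hi)]
    exact mul_le_mul_of_nonneg_left (sum_shift_sub hn _ _) (hc0 i hi)
  have hlim : Tendsto (fun N : ℕ => ((N : ℝ) + 1)⁻¹ * D) atTop (𝓝 0) := by
    have := (tendsto_inv_atTop_zero.comp (tendsto_atTop_add_const_right atTop (1 : ℝ)
      tendsto_natCast_atTop_atTop)).mul_const D
    simpa using this
  obtain ⟨N₀, hN₀⟩ := (hlim.eventually (gt_mem_nhds (show (0 : ℝ) < ε / 4 by positivity))).exists_forall_of_atTop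
  refine ⟨N₀, fun n hn' => ?_⟩
  rw [dist_eq_norm]
  have h1 := hcomp n
  have h2 := hcomp N₀
  have h3 := hBB n N₀
  have h4 := hN₀ n hn'
  have h5 := hN₀ N₀ le_rfl
  set A := fun N : ℕ => ((N : ℂ) + 1)⁻¹ • ∑ n ∈ Finset.range (N + 1), v n
  have e : A n - A N₀ = -(B n - A n) + (B n - B N₀) + (B N₀ - A N₀) := by abel
  change ‖A n - A N₀‖ < ε
  rw [e]
  refine (norm_add_le _ _).trans_lt ?_
  have h6 := norm_add_le (-(B n - A n)) (B n - B N₀)
  rw [norm_neg] at h6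
  have h1' : ‖B n - A n‖ ≤ ((n : ℝ) + 1)⁻¹ * D := h1
  have h2' : ‖B N₀ - A N₀‖ ≤ ((N₀ : ℝ) + 1)⁻¹ * D := h2
  linarith

end Pool.Agent.QE.Helper51
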